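import Pool.Agent.Helper35.FJL.Tails

set_option autoImplicit false

/-!
Bucket sums of the image of a sparse vector (module FJL-7 of the fast Johnson–Lindenstrauss plan).
-/

namespace Pool.Agent.FJL

open Finset Pool.Agent.Helper67.JL

/-- Sum over the buckets in `S` of the masses is the mass of the union. -/
theorem h88_sum_buckets {I K : Type} [Fintype I] [DecidableEq I] [DecidableEq K]
    (bkt : I → K) (S : Finset K) (f : I → ℝ) :
    ∑ κ ∈ S, ∑ i ∈ univ.filter (fun i => bkt i = κ), f i =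
      ∑ i ∈ univ.filter (fun i => bkt i ∈ S), f i := by
  simp_rw [sum_filter]
  rw [sum_comm]
  apply sum_congr rfl
  intro i _
  rw [sum_ite_eq]

theorem h88_smat_sum {I K : Type} [Fintype I] [DecidableEq I] [DecidableEq K]
    (bkt : I → K) (σ : I → Bool) (κ : K) (z : I → ℝ) :
    ∑ i, Smat bkt σ κ i * z i = ∑ i ∈ univ.filter (fun i => bkt i = κ), sg (σ i) * z i := by
  rw [sum_filter]
  apply sum_congr rfl
  intro i _
  unfold Smat
  split_ifs <;> simp

theorem bad_part {I K : Type} [Fintype I] [DecidableEq I] [Nonempty I] [Fintype K]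
    [DecidableEq K] (U : I → I → ℝ) (L : ℝ) (hL : 1 ≤ L) (hU : Spread L U)
    (hU2 : ∀ x : I → ℝ, ∑ i, (∑ j, U i j * x j) ^ 2 ≤ ∑ j, x j ^ 2)
    (bkt : I → K) (β : ℕ) (hβ1 : 1 ≤ β) (hβ : ∀ κ, (univ.filter fun i => bkt i = κ).card = β)
    (v : I → ℝ) (T : Finset I) (N μ u : ℝ) (hT : (T.card : ℝ) ≤ N) (hv : ∀ i ∉ T, v i = 0)
    (hμ : ∑ i, v i ^ 2 ≤ μ) (hμ0 : 0 < μ) (hu : 0 ≤ u) :
    pr (fun σ : I → Bool =>
      (L * (N + β) / (Fintype.card K : ℝ) + 2 + 4 * L * u / (Fintype.card K : ℝ)) * μ <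
        ∑ κ, (∑ i, Smat bkt σ κ i * ∑ j, U i j * v j) ^ 2) ≤ Real.exp (-u) := by
  classical
  set z : I → ℝ := fun i => ∑ j, U i j * v j with hz
  have hKne : Nonempty K := ⟨bkt (Classical.arbitrary I)⟩
  have hK0 : (0 : ℝ) < Fintype.card K := by exact_mod_cast Fintype.card_pos
  have hβ0 : (0 : ℝ) < β := by exact_mod_cast hβ1
  -- the number of coordinates
  have hm : (Fintype.card I : ℝ) = Fintype.card K * β := by
    have h1 : ∑ κ : K, ((univ.filter fun i => bkt i = κ).card : ℝ) = Fintype.card K * β := by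
      rw [sum_congr rfl (fun κ _ => by rw [hβ κ]), sum_const, card_univ, nsmul_eq_mul]
    rw [← h1]
    have h2 := h88_sum_buckets bkt univ (fun _ => (1 : ℝ))
    simp only [sum_const, nsmul_eq_mul, mul_one] at h2
    rw [h2]
    simp
  -- the mass of a set of coordinates
  have hmass : ∀ Q : Finset I, ∑ i ∈ Q, z i ^ 2 ≤
      L * max (Q.card : ℝ) (T.card : ℝ) / (Fintype.card I : ℝ) * μ := by
    intro Q
    have h1 := hU Q T v
    have h2 : ∀ i, ∑ j ∈ T, U i j * v j = z i := by
      intro i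
      rw [hz]
      apply sum_subset (subset_univ T)
      intro j _ hj
      rw [hv j hj, mul_zero]
    simp_rw [h2] at h1
    refine h1.trans ?_
    apply mul_le_mul_of_nonneg_left _ (by positivity)
    refine le_trans ?_ hμ
    exact sum_le_sum_of_subset_of_nonneg (subset_univ T) (fun i _ _ => sq_nonneg _)
  -- masses of buckets
  set M : K → ℝ := fun κ => ∑ i ∈ univ.filter (fun i => bkt i = κ), z i ^ 2 with hM
  have hM0 : ∀ κ, 0 ≤ M κ := fun κ => sum_nonneg fun i _ => sq_nonneg _
  set B : ℝ := L * μ / Fintype.card K with hB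
  have hB0 : 0 < B := by positivity
  set S : Finset K := univ.filter fun κ => B < M κ with hS
  have hSm : ∑ κ ∈ S, M κ ≤
      L * max ((S.card : ℝ) * β) (T.card : ℝ) / (Fintype.card I : ℝ) * μ := by
    rw [hM]
    simp only
    rw [h88_sum_buckets bkt S (fun i => z i ^ 2)]
    have h1 := hmass (univ.filter fun i => bkt i ∈ S)
    have h2 : ((univ.filter fun i => bkt i ∈ S).card : ℝ) = S.card * β := by
      have h3 := h88_sum_buckets bkt S (fun _ => (1 : ℝ))
      simp only [sum_const, nsmul_eq_mul, mul_one] at h3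
      rw [← h3, sum_congr rfl (fun κ _ => by rw [hβ κ]), sum_const, nsmul_eq_mul]
    rwa [h2] at h1
  -- there are few heavy buckets
  have hfew : S.Nonempty → (S.card : ℝ) * β < N := by
    intro hne
    by_contra hcon
    push Not at hcon
    have h1 : max ((S.card : ℝ) * β) (T.card : ℝ) = S.card * β := max_eq_left (hT.trans hcon)
    rw [h1, hm] at hSm
    have h2 : ∑ κ ∈ S, B < ∑ κ ∈ S, M κ :=
      sum_lt_sum_of_nonempty hne (fun κ hκ => (mem_filter.mp hκ).2)
    rw [sum_const, nsmul_eq_mul] at h2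
    have h3 : L * ((S.card : ℝ) * β) / ((Fintype.card K : ℝ) * β) * μ = S.card * B := by
      rw [hB]
      field_simp
    linarith
  have hN0 : 0 ≤ N := le_trans (Nat.cast_nonneg _) hT
  have hheavy : β * ∑ κ ∈ S, M κ ≤ L * N / Fintype.card K * μ := by
    rcases S.eq_empty_or_nonempty with he | hne
    · rw [he, sum_empty, mul_zero]
      positivity
    · have h1 := hfew hne
      have h2 : max ((S.card : ℝ) * β) (T.card : ℝ) ≤ N := max_le h1.le hT
      have h3 : ∑ κ ∈ S, M κ ≤ L * N / (Fintype.card I : ℝ) * μ := by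
        refine hSm.trans ?_
        gcongr
      calc (β : ℝ) * ∑ κ ∈ S, M κ ≤ β * (L * N / (Fintype.card I : ℝ) * μ) :=
            mul_le_mul_of_nonneg_left h3 hβ0.le
        _ = L * N / Fintype.card K * μ := by
            rw [hm]
            field_simp
  -- the chaos of the light buckets
  set w : I → K → ℝ := fun i κ => if bkt i = κ ∧ κ ∉ S then z i else 0 with hw
  have hwsum : ∀ (a : I → ℝ) (κ : K), ∑ i, a i * w i κ =
      if κ ∈ S then 0 else ∑ i ∈ univ.filter (fun i => bkt i = κ), a i * z i := by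
    intro a κ
    rw [sum_filter]
    split_ifs with hκ
    · apply sum_eq_zero
      intro i _
      rw [hw]
      simp [hκ]
    · apply sum_congr rfl
      intro i _
      rw [hw]
      simp only [hκ, not_false_eq_true, and_true]
      split_ifs <;> simp
  have hop : ∀ a : I → ℝ, ∑ k, (∑ i, a i * w i k) ^ 2 ≤ B * ∑ i, a i ^ 2 := by
    intro a
    have h1 : ∑ i, a i ^ 2 = ∑ κ, ∑ i ∈ univ.filter (fun i => bkt i = κ), a i ^ 2 := by
      rw [h88_sum_buckets bkt univ (fun i => a i ^ 2)]
      simp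
    rw [h1, mul_sum]
    apply sum_le_sum
    intro κ _
    rw [hwsum]
    split_ifs with hκ
    · have h7 : 0 ≤ ∑ i ∈ univ.filter (fun i => bkt i = κ), a i ^ 2 :=
        sum_nonneg fun i _ => sq_nonneg _
      rw [zero_pow two_ne_zero]
      exact mul_nonneg hB0.le h7
    · have h2 : M κ ≤ B := by
        by_contra hcon
        push Not at hcon
        exact hκ (by rw [hS]; exact mem_filter.mpr ⟨mem_univ _, hcon⟩)
      have h3 := sum_mul_sq_le_sq_mul_sq (univ.filter (fun i => bkt i = κ)) a z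
      have h4 : 0 ≤ ∑ i ∈ univ.filter (fun i => bkt i = κ), a i ^ 2 :=
        sum_nonneg fun i _ => sq_nonneg _
      calc (∑ i ∈ univ.filter (fun i => bkt i = κ), a i * z i) ^ 2
          ≤ (∑ i ∈ univ.filter (fun i => bkt i = κ), a i ^ 2) * M κ := h3
        _ ≤ (∑ i ∈ univ.filter (fun i => bkt i = κ), a i ^ 2) * B :=
            mul_le_mul_of_nonneg_left h2 h4
        _ = _ := mul_comm _ _
  have htr : ∑ i, ∑ k, w i k ^ 2 ≤ μ := by
    have h1 : ∀ i, ∑ k, w i k ^ 2 ≤ z i ^ 2 := by
      intro i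
      rw [sum_eq_single (bkt i)]
      · rw [hw]
        by_cases hb : bkt i ∈ S
        · simp only [hb, not_true_eq_false, and_false, if_false]
          nlinarith [sq_nonneg (z i)]
        · simp only [hb, not_false_eq_true, and_true, if_true]
          exact le_rfl
      · intro k _ hk
        rw [hw]
        simp [Ne.symm hk]
      · intro h
        exact absurd (mem_univ _) h
    exact (sum_le_sum fun i _ => h1 i).trans ((hU2 v).trans hμ)
  refine le_trans (pr_mono ?_) (chaos_tail w B μ u hB0 hu hop htr)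
  intro σ hσ
  have hsplit : ∑ κ, (∑ i, Smat bkt σ κ i * z i) ^ 2 ≤
      β * ∑ κ ∈ S, M κ + ∑ k, (∑ i, sg (σ i) * w i k) ^ 2 := by
    have h8 : ∑ κ ∈ S, β * M κ = ∑ κ, if κ ∈ S then β * M κ else 0 := by
      rw [sum_ite_mem, univ_inter]
    rw [mul_sum, h8, ← sum_add_distrib]
    apply sum_le_sum
    intro κ _
    rw [h88_smat_sum, hwsum]
    by_cases hκ : κ ∈ S
    · simp only [hκ, if_true]
      have h3 := sum_mul_sq_le_sq_mul_sq (univ.filter (fun i => bkt i = κ))
        (fun i => sg (σ i)) z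
      simp_rw [sg_sq] at h3
      rw [sum_const, nsmul_eq_mul, mul_one, hβ κ] at h3
      simpa using h3
    · simp [hκ]
  have h5 : (L * (N + β) / (Fintype.card K : ℝ) + 2 + 4 * L * u / (Fintype.card K : ℝ)) * μ =
      L * N / Fintype.card K * μ + L * β / Fintype.card K * μ + (2 * μ + 4 * B * u) := by
    rw [hB]
    field_simp
    ring
  have h6 : 0 ≤ L * β / Fintype.card K * μ := by positivity
  rw [h5] at hσ
  linarith

end Pool.Agent.FJL
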